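import Pool.Agent.X310.MuRk
import Pool.Agent.X310.MuGrp
import Pool.Agent.X27.Cln.Iso

/-!
# Iwasawa's conjecture on `μ` and irreducible modules, for the class groups modulo the primes above `p`

For a number field `F ⊆ ℂ` let `RankBdd p F` be the statement of the frozen statement S18549 for `p` and `F`, which
says that `X = Gal(K(F^cyc) / F^cyc)` is finitely generated over `ℤ_p`: the order `rk p F_n` of the `p`-torsion of
`Cl(F_n)` modulo the classes of the primes above `p` is bounded. For a subgroup `D` of `Aut F` let `fx F D` be the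
field of the `x ∈ F` fixed by `D`. Let `H` and the `D i` be subgroups of `Aut F` of orders prime to `p` such that every
irreducible `𝔽_p[Aut F]`-module with a nonzero `H`-fixed vector has a nonzero `D i`-fixed vector for some `i`
(`Dominates p H D`). `comms c` is the subgroup generated by the commutators `g c g⁻¹ c⁻¹`.

* For each Galois extension `E` of `ℚ` of `p`-power degree, `rk p (F^H E) ≤ (∏ i, rk p (F^{D_i} E)) ^ |Aut F|`. So if
  the conjecture holds for the `F^{D_i}`, then it holds for `F^H`.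
* Let `p` be odd and `c ∈ Aut F`, `c² = 1`. If `c ∈ comms c`, then the conjecture for `F` is equivalent to that for
  `F^c`. This holds for all the involutions `c` of nonabelian simple subgroups of `Aut F`.
* If `p` does not divide the order of `comms c`, then the conjecture for `F` is equivalent to that for `F^c` and
  `F^{comms c}`.
* Granted the theorem of Ferrero and Washington, if `F / ℚ` is Galois and `p` does not divide the order of `comms c` and
  the quotient by `comms c` is abelian, then the conjecture for `F` is equivalent to that for `F^c`.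
-/

set_option autoImplicit false

open NumberField

namespace Pool.Agent.Results.MP_d0239a_nt.DominatedFixedFields

open Pool.Agent.X27.Cln Pool.Agent.X310.Mu

/-- The statement of `S18549` for the prime `p` and the field `F`. -/
def RankBdd (p : ℕ) (F : IntermediateField ℚ ℂ) : Prop :=
  ∃ C : ℕ, ∀ (n : ℕ) (E : IntermediateField ℚ ℂ),
    E ≤ IntermediateField.adjoin ℚ {z : ℂ | z ^ (p ^ (n + 2)) = 1} →
    Module.finrank ℚ E = p ^ n →
    (∀ x ∈ E, starRingEnd ℂ x = x) →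
    ∀ [NumberField ↥(F ⊔ E)], rk p ↥(F ⊔ E) ≤ C

/-- The theorem of Ferrero and Washington for the prime `p`. -/
def FerreroWashington (p : ℕ) : Prop :=
  ∀ F : IntermediateField ℚ ℂ, FiniteDimensional ℚ F → IsGalois ℚ F →
    (∀ σ τ : F ≃ₐ[ℚ] F, σ * τ = τ * σ) → RankBdd p F

theorem fx_bot (F : IntermediateField ℚ ℂ) : fx F ⊥ = F := by
  apply le_antisymm (fx_le F ⊥)
  intro x hx
  refine ⟨⟨x, hx⟩, (IntermediateField.mem_fixedField_iff ⊥ _).2 ?_, rfl⟩
  intro f hf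
  rw [Subgroup.mem_bot] at hf
  rw [hf]
  rfl

theorem mu_dom {p : ℕ} (hp : p.Prime) (F : IntermediateField ℚ ℂ) (_ : FiniteDimensional ℚ F)
    {ι : Type} [Fintype ι] (H : Subgroup (F ≃ₐ[ℚ] F)) (D : ι → Subgroup (F ≃ₐ[ℚ] F))
    (hH : ¬ p ∣ Nat.card H) (hD : ∀ i, ¬ p ∣ Nat.card (D i)) (hdom : Dominates p H D)
    (h : ∀ i, RankBdd p (fx F (D i))) : RankBdd p (fx F H) := by
  have hpf : Fact p.Prime := ⟨hp⟩
  choose C hC using h
  refine ⟨(∏ i, C i) ^ Nat.card (F ≃ₐ[ℚ] F), fun n E hE hEf hEr hnf => ?_⟩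
  have hfd : FiniteDimensional ℚ E := FiniteDimensional.of_finrank_pos (by rw [hEf]; exact pow_pos hp.pos n)
  have hg : IsGalois ℚ E := abelian_of_le _ (pow_pos hp.pos _) E hE
  have nF : NumberField F := ⟨⟩
  have hfx : ∀ D : Subgroup (F ≃ₐ[ℚ] F), FiniteDimensional ℚ (fx F D) := fun D => fx_fd F D
  have hnf' : ∀ D : Subgroup (F ≃ₐ[ℚ] F), NumberField ↥(fx F D ⊔ E) := fun D => by
    have : FiniteDimensional ℚ ↥(fx F D ⊔ E) := inferInstance
    exact ⟨⟩
  have hnf2 : NumberField ↥(F ⊔ E) := by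
    have : FiniteDimensional ℚ ↥(F ⊔ E) := inferInstance
    exact ⟨⟩
  have hnf3 : ∀ i, NumberField ↥(fx F (D i) ⊔ E) := fun i => hnf' (D i)
  refine (rk_dom_cx F E n hEf H D hH hD hdom).trans ?_
  exact Nat.pow_le_pow_left (Finset.prod_le_prod' fun i _ => hC i n E hE hEf hEr) _

theorem mu_sub {p : ℕ} (hp : p.Prime) (F : IntermediateField ℚ ℂ) (_ : FiniteDimensional ℚ F)
    (D : Subgroup (F ≃ₐ[ℚ] F)) (hD : ¬ p ∣ Nat.card D) (h : RankBdd p F) : RankBdd p (fx F D) := by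
  have hpf : Fact p.Prime := ⟨hp⟩
  obtain ⟨C, hC⟩ := h
  refine ⟨C, fun n E hE hEf hEr hnf => ?_⟩
  have hfd : FiniteDimensional ℚ E := FiniteDimensional.of_finrank_pos (by rw [hEf]; exact pow_pos hp.pos n)
  have nF : NumberField F := ⟨⟩
  have hnf' : NumberField ↥(F ⊔ E) := by
    have : FiniteDimensional ℚ ↥(F ⊔ E) := inferInstance
    exact ⟨⟩
  exact (rk_ge_cx F E D hD).trans (hC n E hE hEf hEr)

theorem card_bot {p : ℕ} (hp : p.Prime) {G : Type} [Group G] : ¬ p ∣ Nat.card (⊥ : Subgroup G) := by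
  rw [Subgroup.card_bot]
  exact hp.one_lt.ne' ∘ Nat.dvd_one.1

theorem mu_inv {p : ℕ} (hp : p.Prime) (hp2 : p ≠ 2) (F : IntermediateField ℚ ℂ) (hF : FiniteDimensional ℚ F)
    (c : F ≃ₐ[ℚ] F) (hc : c * c = 1) (hcc : c ∈ comms c) :
    RankBdd p F ↔ RankBdd p (fx F (Subgroup.zpowers c)) := by
  constructor
  · exact mu_sub hp F hF _ (card_zpowers_two hp hp2 hc)
  · intro h
    have h1 := mu_dom hp F hF ⊥ (fun _ : Unit => Subgroup.zpowers c) (card_bot hp)
      (fun _ => card_zpowers_two hp hp2 hc) (dominates_single hp hp2 hc hcc ⊥) (fun _ => h)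
    rwa [fx_bot] at h1

theorem mu_pair {p : ℕ} (hp : p.Prime) (hp2 : p ≠ 2) (F : IntermediateField ℚ ℂ) (hF : FiniteDimensional ℚ F)
    (c : F ≃ₐ[ℚ] F) (hc : c * c = 1) (hN : ¬ p ∣ Nat.card (comms c)) :
    RankBdd p F ↔ RankBdd p (fx F (Subgroup.zpowers c)) ∧ RankBdd p (fx F (comms c)) := by
  constructor
  · exact fun h => ⟨mu_sub hp F hF _ (card_zpowers_two hp hp2 hc) h, mu_sub hp F hF _ hN h⟩
  · rintro ⟨h, h'⟩
    have h1 := mu_dom hp F hF ⊥ (pair c) (card_bot hp)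
      (by rintro (_ | _); exacts [hN, card_zpowers_two hp hp2 hc]) (dominates_pair hc ⊥)
      (by rintro (_ | _); exacts [h', h])
    rwa [fx_bot] at h1

theorem result (p : ℕ) (hp : p.Prime) :
    (∀ F : IntermediateField ℚ ℂ, FiniteDimensional ℚ F → ∀ (ι : Type) [Fintype ι]
      (H : Subgroup (F ≃ₐ[ℚ] F)) (D : ι → Subgroup (F ≃ₐ[ℚ] F)),
      ¬ p ∣ Nat.card H → (∀ i, ¬ p ∣ Nat.card (D i)) → Dominates p H D →
      (∀ (E : IntermediateField ℚ ℂ) [NumberField F] [NumberField ↥(F ⊔ E)] [NumberField ↥(fx F H ⊔ E)]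
        [∀ i, NumberField ↥(fx F (D i) ⊔ E)], FiniteDimensional ℚ E → IsGalois ℚ E →
        ∀ m, Module.finrank ℚ E = p ^ m →
        rk p ↥(fx F H ⊔ E) ≤ (∏ i, rk p ↥(fx F (D i) ⊔ E)) ^ Nat.card (F ≃ₐ[ℚ] F)) ∧
      ((∀ i, RankBdd p (fx F (D i))) → RankBdd p (fx F H))) ∧
    (p ≠ 2 → ∀ F : IntermediateField ℚ ℂ, FiniteDimensional ℚ F → ∀ c : F ≃ₐ[ℚ] F, c * c = 1 →
      (c ∈ comms c → (RankBdd p F ↔ RankBdd p (fx F (Subgroup.zpowers c)))) ∧
      (c ≠ 1 → (∃ Γ : Subgroup (F ≃ₐ[ℚ] F), IsSimpleGroup Γ ∧ (∃ a b : Γ, a * b ≠ b * a) ∧ c ∈ Γ) →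
        (RankBdd p F ↔ RankBdd p (fx F (Subgroup.zpowers c)))) ∧
      (¬ p ∣ Nat.card (comms c) →
        (RankBdd p F ↔ RankBdd p (fx F (Subgroup.zpowers c)) ∧ RankBdd p (fx F (comms c)))) ∧
      (FerreroWashington p → IsGalois ℚ F → ¬ p ∣ Nat.card (comms c) →
        (∀ g h : F ≃ₐ[ℚ] F, g * h * g⁻¹ * h⁻¹ ∈ comms c) →
        (RankBdd p F ↔ RankBdd p (fx F (Subgroup.zpowers c))))) := by
  have hpf : Fact p.Prime := ⟨hp⟩
  refine ⟨fun F hF ι _ H D hH hD hdom => ⟨fun E _ _ _ _ hE hEg m hm => ?_, mu_dom hp F hF H D hH hD hdom⟩,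
    fun hp2 F hF c hc => ⟨mu_inv hp hp2 F hF c hc, ?_, mu_pair hp hp2 F hF c hc, ?_⟩⟩
  · exact rk_dom_cx F E m hm H D hH hD hdom
  · rintro hc1 ⟨Γ, hΓ, hn, hcΓ⟩
    exact mu_inv hp hp2 F hF c hc (comms_of_simple Γ hn hcΓ hc1)
  · intro hFW hG hN hab
    rw [mu_pair hp hp2 F hF c hc hN]
    have h1 := abelian_fx F (B := comms c) hab
    have h2 := hFW _ (fx_fd F _) h1.1 h1.2
    exact ⟨fun h => h.1, fun h => ⟨h, h2⟩⟩

end Pool.Agent.Results.MP_d0239a_nt.DominatedFixedFields
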