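import Pool.Agent.X27.Cln.Rank

/-!
# Iwasawa's conjecture on `μ` and norm relations, for the class groups modulo the primes above `p`

For a number field `F ⊆ ℂ` let `RankBdd p F` be the statement of the frozen statement S18549 for `p` and `F`, which
says that `X = Gal(K(F^cyc) / F^cyc)` is finitely generated over `ℤ_p`: the order `rk p F_n` of the `p`-torsion of
`Cl(F_n)` modulo the classes of the primes above `p` is bounded. For a subgroup `D` of `Aut F` let `fx F D` be the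
field of the `x ∈ F` fixed by `D`, and let a family of subgroups `D i ≤ Γ` be a partition (`IsPart Γ D`) if each
element `≠ 1` of `Γ` lies in exactly one of them.

* If `D` is a partition of `Γ ≤ Aut F` into `k` subgroups and `p ∤ k - 1`, then `rk p (F E) ≤ ∏ rk p (F^{D_i} E)` for
  every number field `E`.
* If `p ∤ |D|`, then `rk p (F^D E) ≤ rk p (F E)`.
* So if `Γ ≤ Aut F` is a non-cyclic group of order `q r` (primes `q, r ≠ p`), the conjecture holds for `F` if and
  only if it holds for the `F^D`, `D ≤ Γ` of prime order.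
* The conjecture holds for `F` if it holds for those subfields `M` of `F` for which every subgroup of `Aut M` of
  order `q r`, `q` and `r` prime, `max q r ≠ p`, is cyclic.
* Granted the theorem of Iwasawa on extensions of degree `p`, one may also suppose that `Aut M` has no element of
  order `p`.
-/

set_option autoImplicit false

open NumberField

namespace Pool.Agent.Results.MP_d0239a_nt.NormRelations

open Pool.Agent.X27.Cln

/-- The statement of `S18549` for the prime `p` and the field `F`. -/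
def RankBdd (p : ℕ) (F : IntermediateField ℚ ℂ) : Prop :=
  ∃ C : ℕ, ∀ (n : ℕ) (E : IntermediateField ℚ ℂ),
    E ≤ IntermediateField.adjoin ℚ {z : ℂ | z ^ (p ^ (n + 2)) = 1} →
    Module.finrank ℚ E = p ^ n →
    (∀ x ∈ E, starRingEnd ℂ x = x) →
    ∀ [NumberField ↥(F ⊔ E)], rk p ↥(F ⊔ E) ≤ C

theorem mu_part {p : ℕ} (hp : p.Prime) (F : IntermediateField ℚ ℂ) (_ : FiniteDimensional ℚ F)
    (ι : Type) [Fintype ι] [Nonempty ι] (Γ : Subgroup (F ≃ₐ[ℚ] F)) (D : ι → Subgroup (F ≃ₐ[ℚ] F))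
    (hD : IsPart Γ D) (hk : ¬ p ∣ Fintype.card ι - 1) (h : ∀ i, RankBdd p (fx F (D i))) : RankBdd p F := by
  have hpf : Fact p.Prime := ⟨hp⟩
  choose C hC using h
  refine ⟨∏ i, C i, fun n E hE hEf hEr hnf => ?_⟩
  have hfd : FiniteDimensional ℚ E := FiniteDimensional.of_finrank_pos (by rw [hEf]; exact pow_pos hp.pos n)
  have nF : NumberField F := ⟨⟩
  have hfx : ∀ i, FiniteDimensional ℚ (fx F (D i)) := fun i => fx_fd F (D i)
  have hnf' : ∀ i, NumberField ↥(fx F (D i) ⊔ E) := fun i => by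
    have : FiniteDimensional ℚ ↥(fx F (D i) ⊔ E) := inferInstance
    exact ⟨⟩
  refine (rk_le_cx F E hD hk).trans ?_
  exact Finset.prod_le_prod' fun i _ => hC i n E hE hEf hEr

theorem mu_sub {p : ℕ} (hp : p.Prime) (F : IntermediateField ℚ ℂ) (_ : FiniteDimensional ℚ F)
    (D : Subgroup (F ≃ₐ[ℚ] F)) (hD : ¬ p ∣ Nat.card D) (h : RankBdd p F) : RankBdd p (fx F D) := by
  have hpf : Fact p.Prime := ⟨hp⟩
  obtain ⟨C, hC⟩ := h
  refine ⟨C, fun n E hE hEf hEr hnf => ?_⟩
  have hfd : FiniteDimensional ℚ E := FiniteDimensional.of_finrank_pos (by rw [hEf]; exact pow_pos hp.pos n)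
  have nF : NumberField F := ⟨⟩
  have hnf' : NumberField ↥(F ⊔ E) := by
    have : FiniteDimensional ℚ ↥(F ⊔ E) := inferInstance
    exact ⟨⟩
  exact (rk_ge_cx F E D hD).trans (hC n E hE hEf hEr)

theorem mu_qr {p : ℕ} (hp : p.Prime) (F : IntermediateField ℚ ℂ) (hF : FiniteDimensional ℚ F)
    (Γ : Subgroup (F ≃ₐ[ℚ] F)) (q r : ℕ) (hq : q.Prime) (hr : r.Prime) (hqp : q ≠ p) (hrp : r ≠ p)
    (hc : Nat.card Γ = q * r) (hcyc : ¬ IsCyclic Γ) :
    RankBdd p F ↔ ∀ D : Subgroup (F ≃ₐ[ℚ] F), D ≤ Γ → (Nat.card D).Prime → RankBdd p (fx F D) := by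
  classical
  constructor
  · intro h D hD hDp
    refine mu_sub hp F hF D ?_ h
    have h1 : Nat.card D ∣ q * r := by rw [← hc]; exact Subgroup.card_dvd_of_le hD
    intro hd
    rcases (Nat.Prime.dvd_mul hp).1 (hd.trans h1) with h2 | h2
    · exact hqp ((Nat.prime_dvd_prime_iff_eq hp hq).1 h2).symm
    · exact hrp ((Nat.prime_dvd_prime_iff_eq hp hr).1 h2).symm
  · intro h
    have hfin : Finite (F ≃ₐ[ℚ] F) := inferInstance
    have : Fintype (Subgroup Γ) := Fintype.ofFinite _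
    have hpt := isPart_map (prime_part (X := Γ) hq hr hc hcyc)
    have hcard := prime_part_card (X := Γ) hq hr hc hcyc
    have hne : Nonempty (primeSubs Γ) := by
      rw [← Fintype.card_pos_iff, hcard]
      exact Nat.succ_pos _
    refine mu_part hp F hF (primeSubs Γ) Γ _ hpt ?_ ?_
    · rw [hcard, Nat.add_sub_cancel]
      intro hd
      rcases le_total q r with h1 | h1
      · rw [max_eq_right h1] at hd
        exact hrp ((Nat.prime_dvd_prime_iff_eq hp hr).1 hd).symm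
      · rw [max_eq_left h1] at hd
        exact hqp ((Nat.prime_dvd_prime_iff_eq hp hq).1 hd).symm
    · rintro ⟨D, hD⟩
      simp only [primeSubs, Finset.mem_filter, Finset.mem_univ, true_and] at hD
      refine h _ ?_ ?_
      · rintro _ ⟨x, _, rfl⟩
        exact x.2
      · rw [Subgroup.card_map_of_injective Γ.subtype_injective]
        exact hD

theorem result (p : ℕ) (hp : p.Prime) :
    (∀ (F E : IntermediateField ℚ ℂ) [NumberField F] [NumberField ↥(F ⊔ E)],
      (∀ (ι : Type) [Fintype ι] [Nonempty ι] (Γ : Subgroup (F ≃ₐ[ℚ] F)) (D : ι → Subgroup (F ≃ₐ[ℚ] F))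
        [∀ i, NumberField ↥(fx F (D i) ⊔ E)], IsPart Γ D → ¬ p ∣ Fintype.card ι - 1 →
        rk p ↥(F ⊔ E) ≤ ∏ i, rk p ↥(fx F (D i) ⊔ E)) ∧
      ∀ (D : Subgroup (F ≃ₐ[ℚ] F)) [NumberField ↥(fx F D ⊔ E)], ¬ p ∣ Nat.card D →
        rk p ↥(fx F D ⊔ E) ≤ rk p ↥(F ⊔ E)) ∧
    (∀ F : IntermediateField ℚ ℂ, FiniteDimensional ℚ F → ∀ Γ : Subgroup (F ≃ₐ[ℚ] F), ∀ q r : ℕ,
      q.Prime → r.Prime → q ≠ p → r ≠ p → Nat.card Γ = q * r → ¬ IsCyclic Γ →
      (RankBdd p F ↔ ∀ D : Subgroup (F ≃ₐ[ℚ] F), D ≤ Γ → (Nat.card D).Prime → RankBdd p (fx F D))) ∧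
    (∀ F : IntermediateField ℚ ℂ, FiniteDimensional ℚ F →
      (∀ M : IntermediateField ℚ ℂ, M ≤ F → Good p M → RankBdd p M) → RankBdd p F) ∧
    ((∀ F : IntermediateField ℚ ℂ, FiniteDimensional ℚ F → ∀ D : Subgroup (F ≃ₐ[ℚ] F), Nat.card D = p →
        RankBdd p (fx F D) → RankBdd p F) →
      ∀ F : IntermediateField ℚ ℂ, FiniteDimensional ℚ F →
        (∀ M : IntermediateField ℚ ℂ, M ≤ F → Good p M → ¬ p ∣ Nat.card (M ≃ₐ[ℚ] M) → RankBdd p M) →
        RankBdd p F) := by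
  have hpf : Fact p.Prime := ⟨hp⟩
  refine ⟨fun F E _ _ => ⟨fun ι _ _ Γ D _ hD hk => rk_le_cx F E hD hk,
    fun D _ hD => rk_ge_cx F E D hD⟩, mu_qr hp, ?_, ?_⟩
  · intro F hF h
    exact reduce hp (RankBdd p) (fun F hF ι _ _ Γ D hD hk h => mu_part hp F hF ι Γ D hD hk h) F h
  · intro hIw F hF h
    exact reduce' hp (RankBdd p) (fun F hF ι _ _ Γ D hD hk h => mu_part hp F hF ι Γ D hD hk h) hIw F h

end Pool.Agent.Results.MP_d0239a_nt.NormRelations
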